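import Pool.Agent.W477.CL.Stms

/-! OC-U1: the operations depending on one coordinate form a clone. -/

set_option maxHeartbeats 1000000
set_option linter.all false

namespace Pool.Agent.W918.OC

open FirstOrder FirstOrder.Language
open Pool.Agent.Helper672.ZFA hiding IsOrdPair IsPair Mem
open Pool.Agent.H310
open Pool.Agent.W924
open Pool.Agent.W477.CL

universe u

theorem u1_holds (h : P_IOP.{u}) : P_U1.{u} := by
  intro M _ _ γ _ N hN
  have I := h M
  -- the identity
  let ι : IFun M γ γ := ⟨fun a => a, IntF.id⟩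
  have hι : ∀ a, ι a = a := fun a => rfl
  have hιN : ι ∈ N := hN.id ι hι
  obtain ⟨a0, b0, -⟩ := hN.nc ι hιN
  refine ⟨?_, ?_, ?_⟩
  · intro F hF
    obtain ⟨n, i, f, hi, hf, rfl⟩ := mem_UU.1 hF
    exact ⟨n, lt_of_le_of_lt (INat.zero_le i) hi, I.op γ n i f hi⟩
  · intro n i F hn hi hF
    exact mem_UU.2 ⟨n, i, ι, hi, hιN, I.prj γ n i F ι hi hF hι⟩
  · intro m n F G H hm hn hF hOp hG hGC hGO hC
    obtain ⟨m', j, f, hj, hf, rfl⟩ := mem_UU.1 hF
    have hm' : m' = m := I.arity γ m' m _ a0 (I.op γ m' j f hj) hOp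
    subst hm'
    obtain ⟨K, hK, -⟩ := hG.2 j hj
    obtain ⟨n', i, f', hi, hf', hKe⟩ := mem_UU.1 (hGC j K hK)
    have hn' : n' = n := by
      have h1 := I.op γ n' i f' hi
      rw [← hKe] at h1
      exact I.arity γ n' n _ a0 h1 (hGO j K hK)
    subst hn'
    let f'' : IFun M γ γ := ⟨fun a => f (f' a), IntF.comp f.int f'.int⟩
    have hf'' : ∀ a, f'' a = f (f' a) := fun a => rfl
    exact mem_UU.2 ⟨n', i, f'', hi, hN.comp f f' f'' hf hf' hf'',
      I.cmp γ n' m' i j f f' f'' H K G hi hj hG hGO hK hKe hC hf''⟩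

end Pool.Agent.W918.OC
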